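import Mathlib
import Pool.Agent.Helper297.Drc
import Pool.Agent.Helper297.Family

/-!
Growth of `f(n,m,c,ε)`: for every fixed `0 < c ≤ 1/2` and every `δ > 0` the function
`f(n,m,c,ε)` is at least a constant times `m / min(m, 2^n)^δ` as soon as `ε` is small, and for every
`ε > 0` it is at most a constant times `m / min(m, 2^n)^a` with some `a = a(ε) > 0`.
-/

set_option autoImplicit false

namespace Pool.Agent.Results.MP_cecf76_co.Growth

open Finset

/-- The index set `I` is `ε`-intersecting for the sequence `A` of subsets of an `n`-set. -/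
def EpsIntersecting {n m : ℕ} (A : Fin m → Finset (Fin n)) (ε : ℝ) (I : Finset (Fin m)) : Prop :=
  ∀ i ∈ I, ∀ j ∈ I, i ≠ j → ε * (n : ℝ) < ((A i ∩ A j).card : ℝ)

/-- The integers `k` such that every sequence of `m` subsets of an `n`-set, all of size more than
`c n`, has an `ε`-intersecting index set of size `k`. -/
def forced (n m : ℕ) (c ε : ℝ) : Set ℕ :=
  {k | ∀ A : Fin m → Finset (Fin n), (∀ i, c * (n : ℝ) < ((A i).card : ℝ)) →
    ∃ I : Finset (Fin m), I.card = k ∧ EpsIntersecting A ε I}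

/-- `f(n,m,c,ε)`: the largest such integer. -/
noncomputable def f (n m : ℕ) (c ε : ℝ) : ℕ := sSup (forced n m c ε)

theorem f_isGreatest {n m : ℕ} {c ε : ℝ} (hn : 1 ≤ n) (hc : c < 1) :
    IsGreatest (forced n m c ε) (f n m c ε) := by
  have hne : (forced n m c ε).Nonempty := by
    refine ⟨0, fun A _ => ⟨∅, rfl, ?_⟩⟩
    intro i hi
    simp at hi
  have hbd : BddAbove (forced n m c ε) := by
    refine ⟨m, fun k hk => ?_⟩
    obtain ⟨I, hI, -⟩ := hk (fun _ => univ) (by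
      intro _
      simp only [Finset.card_univ, Fintype.card_fin]
      have : (1 : ℝ) ≤ (n : ℝ) := by exact_mod_cast hn
      nlinarith)
    rw [← hI]
    have := Finset.card_le_univ I
    simpa using this
  exact ⟨Nat.sSup_mem hne hbd, fun x hx => le_csSup hbd hx⟩

/-- `f` bounds every forced size from above. -/
theorem le_f {n m : ℕ} {c ε : ℝ} (hn : 1 ≤ n) (hc : c < 1) {k : ℕ}
    (h : ∀ A : Fin m → Finset (Fin n), (∀ i, c * (n : ℝ) < ((A i).card : ℝ)) →
      ∃ I : Finset (Fin m), k ≤ I.card ∧ EpsIntersecting A ε I) : k ≤ f n m c ε := by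
  refine (f_isGreatest hn hc).2 ?_
  intro A hA
  obtain ⟨I, hk, hI⟩ := h A hA
  obtain ⟨J, hJI, hJ⟩ := Finset.exists_subset_card_eq hk
  exact ⟨J, hJ, fun i hi j hj hij => hI i (hJI hi) j (hJI hj) hij⟩

/-- Lower bound. -/
theorem lower {c : ℝ} (hc0 : 0 < c) (hc1 : c < 1) {s : ℕ} (hs : 1 ≤ s) {ε : ℝ}
    (hε : ε ≤ c ^ (s + 1)) {n m : ℕ} (hn : 1 ≤ n) (hm : 1 ≤ m) :
    c / 4 * (s : ℝ)⁻¹ * ((m : ℝ) * (min (m : ℝ) (2 ^ n)) ^ (-(s : ℝ)⁻¹)) ≤ (f n m c ε : ℝ) := by
  classical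
  have hnR : (1 : ℝ) ≤ (n : ℝ) := by exact_mod_cast hn
  have hmR : (1 : ℝ) ≤ (m : ℝ) := by exact_mod_cast hm
  have hsR : (1 : ℝ) ≤ (s : ℝ) := by exact_mod_cast hs
  have hsinv : 0 < (s : ℝ)⁻¹ := by positivity
  have : Nonempty (Fin n) := ⟨⟨0, hn⟩⟩
  set W : ℝ := min (m : ℝ) (2 ^ n) with hW
  have hW1 : 1 ≤ W := le_min hmR (one_le_pow₀ (by norm_num))
  have hWpos : 0 < W := by linarith
  set x : ℝ := c / 4 * (s : ℝ)⁻¹ * ((m : ℝ) * W ^ (-(s : ℝ)⁻¹)) with hx
  have hxpos : 0 < x := by positivity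
  -- enough: an intersecting index set of size at least `⌈x⌉`
  have hmain : ⌈x⌉₊ ≤ f n m c ε := by
    refine le_f hn hc1 ?_
    intro A hA
    let U : Finset (Finset (Fin n)) := univ.image A
    have hU : ∀ S ∈ U, c * (n : ℝ) < (S.card : ℝ) := by
      intro S hS
      obtain ⟨i, _, rfl⟩ := Finset.mem_image.mp hS
      exact hA i
    obtain ⟨K, col, hK, hcol1, hcol2⟩ := Helper297.Drc.greedy
      (fun S T : Finset (Fin n) => ε * (n : ℝ) < ((S ∩ T).card : ℝ))
      (b := c / 4) (δ := (s : ℝ)⁻¹) (by positivity) hsinv (inv_le_one_of_one_le₀ hsR) U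
      (by
        intro J hJU hJ
        obtain ⟨I, hIJ, hI1, hI2⟩ := Helper297.Drc.drc_power hc0 hc1 hs J hJ
          (fun S : Finset (Fin n) => S) (by
            intro S hS
            have := hU S (hJU hS)
            simpa using this.le)
        refine ⟨I, hIJ, hI1, ?_⟩
        intro S hS T hT hST
        have h1 := hI2 S hS T hT hST
        simp only [Fintype.card_fin] at h1
        have h2 : ε * (n : ℝ) ≤ c ^ (s + 1) * (n : ℝ) :=
          mul_le_mul_of_nonneg_right hε (by linarith)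
        linarith) U.card U (Finset.Subset.refl U) rfl
    have hUW : (U.card : ℝ) ≤ W := by
      apply le_min
      · have : U.card ≤ (univ : Finset (Fin m)).card := Finset.card_image_le
        simp only [Finset.card_univ, Fintype.card_fin] at this
        exact_mod_cast this
      · have : U.card ≤ Fintype.card (Finset (Fin n)) := Finset.card_le_univ U
        simp only [Fintype.card_finset, Fintype.card_fin] at this
        exact_mod_cast this
    have hKW : (K : ℝ) ≤ (c / 4 * (s : ℝ)⁻¹)⁻¹ * W ^ ((s : ℝ)⁻¹) := by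
      refine hK.trans ?_
      apply mul_le_mul_of_nonneg_left _ (by positivity)
      exact Real.rpow_le_rpow (by positivity) hUW hsinv.le
    -- pigeonhole
    have hex : ∃ b ∈ Finset.range K,
        (m : ℝ) ≤ (K : ℝ) * (((univ : Finset (Fin m)).filter (fun i => col (A i) = b)).card : ℝ) := by
      by_contra hcon
      push Not at hcon
      have hsum := Finset.card_eq_sum_card_fiberwise (s := (univ : Finset (Fin m)))
        (t := Finset.range K) (f := fun i => col (A i)) (by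
          intro i _
          exact Finset.mem_coe.2 (Finset.mem_range.2
            (hcol1 (A i) (Finset.mem_image_of_mem A (Finset.mem_univ i)))))
      simp only [Finset.card_univ, Fintype.card_fin] at hsum
      have hKpos : 0 < K := by
        rcases Nat.eq_zero_or_pos K with h | h
        · rw [h] at hsum
          simp at hsum
          omega
        · exact h
      have hlt : (K : ℝ) * (m : ℝ) < K * m := by
        calc (K : ℝ) * (m : ℝ) = ∑ b ∈ Finset.range K,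
              ((K : ℝ) * (((univ : Finset (Fin m)).filter (fun i => col (A i) = b)).card : ℝ)) := by
              rw [← Finset.mul_sum]
              congr 1
              exact_mod_cast hsum
          _ < ∑ _b ∈ Finset.range K, (m : ℝ) :=
              Finset.sum_lt_sum_of_nonempty (Finset.nonempty_range_iff.2 (by omega))
                (fun b hb => hcon b hb)
          _ = K * m := by rw [Finset.sum_const, Finset.card_range, nsmul_eq_mul]
      exact lt_irrefl _ hlt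
    obtain ⟨b, -, hb⟩ := hex
    refine ⟨(univ : Finset (Fin m)).filter (fun i => col (A i) = b), ?_, ?_⟩
    · refine Nat.ceil_le.2 ?_
      have h1 : (m : ℝ) ≤ ((c / 4 * (s : ℝ)⁻¹)⁻¹ * W ^ ((s : ℝ)⁻¹)) *
          (((univ : Finset (Fin m)).filter (fun i => col (A i) = b)).card : ℝ) :=
        hb.trans (mul_le_mul_of_nonneg_right hKW (by positivity))
      have h2 : 0 < c / 4 * (s : ℝ)⁻¹ := by positivity
      have h3 : 0 < W ^ ((s : ℝ)⁻¹) := Real.rpow_pos_of_pos hWpos _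
      rw [hx, Real.rpow_neg hWpos.le]
      calc c / 4 * (s : ℝ)⁻¹ * ((m : ℝ) * (W ^ ((s : ℝ)⁻¹))⁻¹)
          ≤ c / 4 * (s : ℝ)⁻¹ * ((((c / 4 * (s : ℝ)⁻¹)⁻¹ * W ^ ((s : ℝ)⁻¹)) *
            (((univ : Finset (Fin m)).filter (fun i => col (A i) = b)).card : ℝ)) *
              (W ^ ((s : ℝ)⁻¹))⁻¹) := by
            apply mul_le_mul_of_nonneg_left _ h2.le
            exact mul_le_mul_of_nonneg_right h1 (inv_nonneg.2 h3.le)
        _ = (((univ : Finset (Fin m)).filter (fun i => col (A i) = b)).card : ℝ) := by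
            field_simp
    · intro i hi j hj hij
      simp only [Finset.mem_filter, Finset.mem_univ, true_and] at hi hj
      by_cases hAA : A i = A j
      · rw [hAA, Finset.inter_self]
        have h2 := hA j
        have h3 : ε ≤ c := by
          refine hε.trans ?_
          calc c ^ (s + 1) ≤ c ^ 1 := pow_le_pow_of_le_one hc0.le hc1.le (by omega)
            _ = c := pow_one c
        have h4 : ε * (n : ℝ) ≤ c * (n : ℝ) := mul_le_mul_of_nonneg_right h3 (by linarith)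
        linarith
      · exact hcol2 (A i) (Finset.mem_image_of_mem A (Finset.mem_univ i))
          (A j) (Finset.mem_image_of_mem A (Finset.mem_univ j)) hAA (by rw [hi, hj])
  exact (Nat.le_ceil x).trans (by exact_mod_cast hmain)

/-- Upper bound. -/
theorem upper {ε : ℝ} (hε : 0 < ε) (hε1 : ε ≤ 1) :
    ∃ a : ℝ, 0 < a ∧ ∃ C : ℝ, 0 < C ∧ ∀ c : ℝ, c ≤ 1 / 2 → ∀ n m : ℕ, 1 ≤ n → 1 ≤ m →
      (f n m c ε : ℝ) ≤ C * ((m : ℝ) * (min (m : ℝ) (2 ^ n)) ^ (-a)) := by
  obtain ⟨a, ha, C, hC, hfam⟩ := Helper297.Family.family hε hε1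
  refine ⟨a, ha, C, hC, ?_⟩
  intro c hc n m hn hm
  obtain ⟨A, hA1, hA2⟩ := hfam n m hn hm
  have hc1 : c < 1 := by linarith
  obtain ⟨I, hI, hII⟩ := (f_isGreatest (n := n) (m := m) (c := c) (ε := ε) hn hc1).1 A (by
    intro i
    have h1 := hA1 i
    have h2 : (1 : ℝ) ≤ (n : ℝ) := by exact_mod_cast hn
    nlinarith)
  rw [← hI]
  have := hA2 I (fun i hi j hj hij => (hII i hi j hj hij).le)
  linarith

/-- Bounds for `f(n,m,c,ε)`.

1. For `0 < c < 1`, an integer `s ≥ 1` and `0 < ε ≤ c^(s+1)`: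
   `f(n,m,c,ε) ≥ (c/(4s)) m min(m,2^n)^(-1/s)` for all `n, m ≥ 1`.
2. (The conjecture.) For `0 < c < 1` and `0 < ε ≤ c^3`: `f(n,n,c,ε) ≥ (c/8) n^(1/2)`.
3. For `0 < ε ≤ 1` there are `a, C > 0` with `f(n,m,c,ε) ≤ C m min(m,2^n)^(-a)` for all
   `c ≤ 1/2` and all `n, m ≥ 1`.
4. (No linear bound.) For all `c ≤ 1/2`, `ε > 0` and `η > 0`, for all sufficiently large `m` and all
   `n ≥ m`: `f(n,m,c,ε) < η m`. -/
theorem result :
    (∀ c : ℝ, 0 < c → c < 1 → ∀ s : ℕ, 1 ≤ s → ∀ ε : ℝ, 0 < ε → ε ≤ c ^ (s + 1) →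
      ∀ n m : ℕ, 1 ≤ n → 1 ≤ m →
        c / (4 * s) * ((m : ℝ) * (min (m : ℝ) (2 ^ n)) ^ (-(1 / (s : ℝ)))) ≤ (f n m c ε : ℝ)) ∧
    (∀ c : ℝ, 0 < c → c < 1 → ∀ ε : ℝ, 0 < ε → ε ≤ c ^ 3 → ∀ n : ℕ, 1 ≤ n →
        c / 8 * (n : ℝ) ^ (1 / 2 : ℝ) ≤ (f n n c ε : ℝ)) ∧
    (∀ ε : ℝ, 0 < ε → ε ≤ 1 → ∃ a : ℝ, 0 < a ∧ ∃ C : ℝ, 0 < C ∧
      ∀ c : ℝ, c ≤ 1 / 2 → ∀ n m : ℕ, 1 ≤ n → 1 ≤ m →
        (f n m c ε : ℝ) ≤ C * ((m : ℝ) * (min (m : ℝ) (2 ^ n)) ^ (-a))) ∧
    (∀ ε : ℝ, 0 < ε → ∀ η : ℝ, 0 < η → ∃ m₀ : ℕ, ∀ m : ℕ, m₀ ≤ m → ∀ n : ℕ, m ≤ n →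
      ∀ c : ℝ, c ≤ 1 / 2 → (f n m c ε : ℝ) < η * m) := by
  have part1 : ∀ c : ℝ, 0 < c → c < 1 → ∀ s : ℕ, 1 ≤ s → ∀ ε : ℝ, 0 < ε → ε ≤ c ^ (s + 1) →
      ∀ n m : ℕ, 1 ≤ n → 1 ≤ m →
        c / (4 * s) * ((m : ℝ) * (min (m : ℝ) (2 ^ n)) ^ (-(1 / (s : ℝ)))) ≤ (f n m c ε : ℝ) := by
    intro c hc0 hc1 s hs ε hε hεc n m hn hm
    have h := lower hc0 hc1 hs hεc hn hm
    have e1 : c / (4 * s) = c / 4 * (s : ℝ)⁻¹ := by
      rw [div_mul_eq_div_div, div_eq_mul_inv (c / 4)]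
    rw [e1, one_div]
    exact h
  refine ⟨part1, ?_, fun ε hε hε1 => upper hε hε1, ?_⟩
  · intro c hc0 hc1 ε hε hεc n hn
    have h := part1 c hc0 hc1 2 (by norm_num) ε hε hεc n n hn hn
    have hnR : (1 : ℝ) ≤ (n : ℝ) := by exact_mod_cast hn
    refine le_trans ?_ h
    have h1 : min (n : ℝ) (2 ^ n) = n := by
      apply min_eq_left
      exact_mod_cast (Nat.lt_two_pow_self (n := n)).le
    rw [h1]
    have h2 : (n : ℝ) * (n : ℝ) ^ (-(1 / ((2 : ℕ) : ℝ))) = (n : ℝ) ^ (1 / 2 : ℝ) := by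
      have : (n : ℝ) * (n : ℝ) ^ (-(1 / ((2 : ℕ) : ℝ))) =
          (n : ℝ) ^ (1 : ℝ) * (n : ℝ) ^ (-(1 / ((2 : ℕ) : ℝ))) := by rw [Real.rpow_one]
      rw [this, ← Real.rpow_add (by linarith)]
      congr 1
      norm_num
    rw [h2]
    have h3 : c / (4 * ((2 : ℕ) : ℝ)) = c / 8 := by norm_num
    rw [h3]
  · intro ε hε η hη
    obtain ⟨a, ha, C, hC, hf⟩ := upper (ε := min ε 1) (lt_min hε one_pos) (min_le_right _ _)
    have hlim : Filter.Tendsto (fun m : ℕ => C * (m : ℝ) ^ (-a)) Filter.atTop (nhds (C * 0)) :=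
      ((tendsto_rpow_neg_atTop ha).comp tendsto_natCast_atTop_atTop).const_mul C
    rw [mul_zero] at hlim
    obtain ⟨m₁, hm₁⟩ := Filter.eventually_atTop.1 (hlim.eventually (gt_mem_nhds hη))
    refine ⟨max m₁ 1, ?_⟩
    intro m hm n hmn c hc
    have hm1 : 1 ≤ m := (le_max_right _ _).trans hm
    have hn1 : 1 ≤ n := hm1.trans hmn
    have hmR : (1 : ℝ) ≤ (m : ℝ) := by exact_mod_cast hm1
    have h1 := hf c hc n m hn1 hm1
    have hmin : min (m : ℝ) (2 ^ n) = m := by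
      apply min_eq_left
      have h2 : m ≤ 2 ^ n := hmn.trans (Nat.lt_two_pow_self (n := n)).le
      exact_mod_cast h2
    rw [hmin] at h1
    have h3 := hm₁ m ((le_max_left _ _).trans hm)
    -- monotonicity in `ε`
    have hmono : f n m c ε ≤ f n m c (min ε 1) := by
      refine le_f hn1 (by linarith) ?_
      intro A hA
      obtain ⟨I, hI, hII⟩ := (f_isGreatest (n := n) (m := m) (c := c) (ε := ε) hn1
        (by linarith)).1 A hA
      refine ⟨I, hI.ge, fun i hi j hj hij => ?_⟩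
      have h4 := hII i hi j hj hij
      have h5 : min ε 1 * (n : ℝ) ≤ ε * n :=
        mul_le_mul_of_nonneg_right (min_le_left _ _) (by positivity)
      linarith
    calc (f n m c ε : ℝ) ≤ (f n m c (min ε 1) : ℝ) := by exact_mod_cast hmono
      _ ≤ C * ((m : ℝ) * (m : ℝ) ^ (-a)) := h1
      _ = (C * (m : ℝ) ^ (-a)) * m := by ring
      _ < η * m := mul_lt_mul_of_pos_right h3 (by linarith)

end Pool.Agent.Results.MP_cecf76_co.Growth
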